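import Mathlib
import Pool.Agent.helper86.BK.Spec

/-!
# Module SLI of project bk: (MP_bb5cc8_nt): slices of a Kakeya set
-/

set_option autoImplicit false

namespace Pool.Agent.BK

/-- the floors of points near `t` -/
noncomputable def SLI_box {j : ℕ} (ρ : ℝ) (t : EuclideanSpace ℝ (Fin (j + 1))) :
    Finset (Fin j → ℤ) :=
  Fintype.piFinset fun m : Fin j =>
    Finset.Icc (⌊t m.succ / ρ⌋ - 1) (⌊t m.succ / ρ⌋ + 1)

theorem SLI_box_card {j : ℕ} (ρ : ℝ) (t : EuclideanSpace ℝ (Fin (j + 1))) :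
    (SLI_box ρ t).card = 3 ^ j := by
  unfold SLI_box
  rw [Fintype.card_piFinset]
  have h : ∀ m : Fin j, (Finset.Icc (⌊t m.succ / ρ⌋ - 1) (⌊t m.succ / ρ⌋ + 1)).card = 3 := by
    intro m
    rw [Int.card_Icc]
    have : ⌊t m.succ / ρ⌋ + 1 + 1 - (⌊t m.succ / ρ⌋ - 1) = 3 := by ring
    rw [this]
    rfl
  simp only [h, Finset.prod_const, Finset.card_univ, Fintype.card_fin]

theorem SLI_box_mem {j : ℕ} {ρ : ℝ} (hρ : 0 < ρ) (p t : EuclideanSpace ℝ (Fin (j + 1)))
    (h : p ∈ Metric.closedBall t ρ) : (fun m : Fin j => ⌊p m.succ / ρ⌋) ∈ SLI_box ρ t := by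
  unfold SLI_box
  rw [Fintype.mem_piFinset]
  intro m
  have h1 : ‖(p - t) m.succ‖ ≤ ρ := by
    refine (PiLp.norm_apply_le (p - t) m.succ).trans ?_
    rw [← dist_eq_norm]
    exact h
  have h2 : |p m.succ - t m.succ| ≤ ρ := by
    simpa [Real.norm_eq_abs] using h1
  obtain ⟨h3, h4⟩ := abs_le.1 h2
  have h5 : t m.succ / ρ - 1 ≤ p m.succ / ρ := by
    rw [div_sub_one hρ.ne']
    exact div_le_div_of_nonneg_right (by linarith) hρ.le
  have h6 : p m.succ / ρ ≤ t m.succ / ρ + 1 := by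
    rw [div_add_one hρ.ne']
    exact div_le_div_of_nonneg_right (by linarith) hρ.le
  rw [Finset.mem_Icc]
  constructor
  · have := Int.floor_le_floor h5
    rwa [Int.floor_sub_one] at this
  · have := Int.floor_le_floor h6
    rwa [Int.floor_add_one] at this

/-- the time -/
noncomputable def SLI_u (ρ h : ℝ) (D l : ℕ) (i : ℤ) (k : ℕ) : ℝ := 2 * ρ * l + i * h + k * D * ρ

/-- the indices -/
noncomputable def SLI_X {j : ℕ} (L I : ℕ) (T : Finset (EuclideanSpace ℝ (Fin (j + 1)))) :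
    Finset ((ℤ × ℕ) × EuclideanSpace ℝ (Fin (j + 1))) :=
  (Finset.Icc (-(I : ℤ)) I ×ˢ Finset.range L) ×ˢ T

theorem SLI_X_card {j : ℕ} (L I : ℕ) (T : Finset (EuclideanSpace ℝ (Fin (j + 1)))) :
    (SLI_X L I T).card = (2 * I + 1) * L * T.card := by
  unfold SLI_X
  rw [Finset.card_product, Finset.card_product, Int.card_Icc, Finset.card_range]
  have : ((I : ℤ) + 1 - -(I : ℤ)).toNat = 2 * I + 1 := by omega
  rw [this]

/-- at most two times -/
theorem SLI_two (ρ a : ℝ) (hρ : 0 < ρ) (J : ℕ) :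
    ((Finset.range J).filter (fun l : ℕ => |a - 2 * ρ * l| ≤ ρ)).card ≤ 2 := by
  set c : ℝ := (a - ρ) / (2 * ρ) with hc
  have h2 : (0 : ℝ) < 2 * ρ := by linarith
  have hsub : (Finset.range J).filter (fun l : ℕ => |a - 2 * ρ * l| ≤ ρ) ⊆
      {⌈c⌉₊, ⌈c⌉₊ + 1} := by
    intro l hl
    rw [Finset.mem_filter] at hl
    obtain ⟨h3, h4⟩ := abs_le.1 hl.2
    have h5 : c ≤ l := by
      rw [hc, div_le_iff₀ h2]
      nlinarith
    have h6 : (l : ℝ) ≤ c + 1 := by
      rw [hc, div_add_one h2.ne', le_div_iff₀ h2]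
      nlinarith
    have h7 : ⌈c⌉₊ ≤ l := Nat.ceil_le.2 h5
    have h8 : (l : ℝ) ≤ ((⌈c⌉₊ + 1 : ℕ) : ℝ) := by
      push_cast
      linarith [Nat.le_ceil c]
    have h9 : l ≤ ⌈c⌉₊ + 1 := by exact_mod_cast h8
    rw [Finset.mem_insert, Finset.mem_singleton]
    omega
  refine (Finset.card_le_card hsub).trans ?_
  exact Finset.card_le_two

/-- the vector of a direction -/
noncomputable def SLI_e {j : ℕ} (D : ℕ) (q : Fin j → ℕ) : EuclideanSpace ℝ (Fin (j + 1)) :=
  WithLp.toLp 2 (Fin.cons 1 (fun i => (q i : ℝ) / D))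

theorem SLI_e_zero {j : ℕ} (D : ℕ) (q : Fin j → ℕ) : SLI_e D q 0 = 1 := rfl

theorem SLI_e_succ {j : ℕ} (D : ℕ) (q : Fin j → ℕ) (i : Fin j) :
    SLI_e D q i.succ = (q i : ℝ) / D := rfl

theorem SLI_e_norm {j : ℕ} (D : ℕ) (hD : 1 ≤ D) (q : Fin j → ℕ) (hq : ∀ i, q i < D) :
    ‖SLI_e D q‖ ≤ j + 1 := by
  rw [EuclideanSpace.norm_eq, Real.sqrt_le_iff]
  refine ⟨by positivity, ?_⟩
  have h1 : ∀ i : Fin (j + 1), ‖SLI_e D q i‖ ^ 2 ≤ 1 := by
    intro i
    have h0 : ‖SLI_e D q i‖ ≤ 1 := by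
      refine Fin.cases ?_ ?_ i
      · rw [SLI_e_zero]
        simp
      · intro m
        rw [SLI_e_succ]
        have hDp : (0 : ℝ) < D := by exact_mod_cast hD
        rw [Real.norm_of_nonneg (by positivity), div_le_one hDp]
        exact_mod_cast (hq m).le
    have : 0 ≤ ‖SLI_e D q i‖ := norm_nonneg _
    nlinarith
  have h2 : ∑ i : Fin (j + 1), ‖SLI_e D q i‖ ^ 2 ≤ ∑ _i : Fin (j + 1), (1 : ℝ) :=
    Finset.sum_le_sum fun i _ => h1 i
  simp only [Finset.sum_const, Finset.card_univ, Fintype.card_fin, nsmul_eq_mul, mul_one] at h2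
  push_cast at h2
  have h3 : (0 : ℝ) ≤ j := by positivity
  nlinarith

theorem SLI : SLI_stmt := by
  classical
  intro j K hK
  obtain ⟨hb, hK⟩ := hK
  obtain ⟨R, hR⟩ := hb.exists_norm_le
  set s : ℝ := j + 1 with hs
  have hs1 : 1 ≤ s := by
    have : (0 : ℝ) ≤ j := by positivity
    linarith
  set h : ℝ := 1 / (4 * s) with hh
  have hhp : 0 < h := by positivity
  have h4h : 4 * h = 1 / s := by
    rw [hh]
    field_simp
  set I : ℕ := ⌈R / h⌉₊ + 1 with hI
  set C : ℝ := 8 * 3 ^ j * (2 * I + 1) / h with hC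
  have hCh : 8 / h ≤ C := by
    rw [hC]
    apply div_le_div_of_nonneg_right _ hhp.le
    have h1 : (1 : ℝ) ≤ 3 ^ j := one_le_pow₀ (by norm_num)
    have h2 : (0 : ℝ) ≤ I := by positivity
    nlinarith
  have hCp : 0 < C := lt_of_lt_of_le (by positivity) hCh
  refine ⟨C, hCp, ?_⟩
  intro ρ D L T hρ hD hCρ hCL hcov
  -- smallness
  have hρh : 8 * ρ ≤ h := by
    have h1 : 8 / h * ρ ≤ 1 := (mul_le_mul_of_nonneg_right hCh hρ.le).trans hCρ
    have h2 : 8 / h * ρ = 8 * ρ / h := by ring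
    rw [h2, div_le_one hhp] at h1
    exact h1
  have hLh : 8 * (L * D * ρ) ≤ h := by
    have h1 : 8 / h * (L * D * ρ) ≤ 1 :=
      (mul_le_mul_of_nonneg_right hCh (by positivity)).trans hCL
    have h2 : 8 / h * (L * D * ρ) = 8 * (L * D * ρ) / h := by ring
    rw [h2, div_le_one hhp] at h1
    exact h1
  set J : ℕ := ⌊h / (2 * ρ)⌋₊ with hJ
  have h2ρ : (0 : ℝ) < 2 * ρ := by linarith
  have hJ1 : (J : ℝ) ≤ h / (2 * ρ) := Nat.floor_le (by positivity)
  have hJ2 : h / (2 * ρ) < J + 1 := Nat.lt_floor_add_one _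
  have hJ3 : 2 * ρ * J ≤ h := by
    rw [le_div_iff₀ h2ρ] at hJ1
    linarith
  have hJ4 : h < (J + 1) * (2 * ρ) := by
    rwa [div_lt_iff₀ h2ρ] at hJ2
  have hJpos : 0 < J := by
    rw [hJ, Nat.floor_pos, le_div_iff₀ h2ρ]
    linarith
  have hJ5 : h ≤ 4 * ρ * J := by
    have h1 : (1 : ℝ) ≤ J := by exact_mod_cast hJpos
    nlinarith
  -- the sets of indices
  let Y : ℕ → Finset ((ℤ × ℕ) × EuclideanSpace ℝ (Fin (j + 1))) := fun l =>
    (SLI_X L I T).filter (fun z => |z.2 0 - SLI_u ρ h D l z.1.1 z.1.2| ≤ ρ)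
  have hsum : ∑ l ∈ Finset.range J, (Y l).card ≤ 2 * ((2 * I + 1) * L * T.card) := by
    have h1 : ∑ l ∈ Finset.range J, (Y l).card =
        ∑ z ∈ SLI_X L I T, ((Finset.range J).filter
          (fun l : ℕ => |z.2 0 - SLI_u ρ h D l z.1.1 z.1.2| ≤ ρ)).card := by
      simp only [Y, Finset.card_filter]
      exact Finset.sum_comm
    rw [h1]
    have h2 : ∀ z ∈ SLI_X L I T, ((Finset.range J).filter
          (fun l : ℕ => |z.2 0 - SLI_u ρ h D l z.1.1 z.1.2| ≤ ρ)).card ≤ 2 := by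
      intro z _
      have h3 : ∀ l : ℕ, z.2 0 - SLI_u ρ h D l z.1.1 z.1.2 =
          (z.2 0 - (z.1.1 * h + z.1.2 * D * ρ)) - 2 * ρ * l := by
        intro l
        unfold SLI_u
        ring
      simp only [h3]
      exact SLI_two ρ _ hρ J
    refine (Finset.sum_le_sum h2).trans ?_
    rw [Finset.sum_const, SLI_X_card, smul_eq_mul, mul_comm]
  obtain ⟨l, hl, hlY⟩ : ∃ l ∈ Finset.range J,
      ((Y l).card : ℝ) ≤ 2 * ((2 * I + 1) * L * T.card) / J := by
    apply Finset.exists_le_of_sum_le (Finset.nonempty_range_iff.2 hJpos.ne')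
    rw [Finset.sum_const, Finset.card_range, nsmul_eq_mul]
    have hJr : (J : ℝ) ≠ 0 := by exact_mod_cast hJpos.ne'
    rw [mul_div_cancel₀ _ hJr]
    exact_mod_cast hsum
  rw [Finset.mem_range] at hl
  refine ⟨(Y l).biUnion (fun z => SLI_box ρ z.2), ?_, ?_⟩
  · -- cardinality
    have h1 : ((Y l).biUnion (fun z => SLI_box ρ z.2)).card ≤ (Y l).card * 3 ^ j := by
      refine Finset.card_biUnion_le_card_mul _ _ _ ?_
      intro z _
      rw [SLI_box_card]
    have h2 : ((((Y l).biUnion (fun z => SLI_box ρ z.2)).card : ℕ) : ℝ) ≤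
        ((Y l).card : ℝ) * 3 ^ j := by exact_mod_cast h1
    refine h2.trans ?_
    have hJr : (0 : ℝ) < J := by exact_mod_cast hJpos
    have h3 : ((Y l).card : ℝ) * 3 ^ j ≤ 2 * ((2 * I + 1) * L * T.card) / J * 3 ^ j :=
      mul_le_mul_of_nonneg_right hlY (by positivity)
    refine h3.trans ?_
    have h4 : (1 : ℝ) / J ≤ 4 * ρ / h := by
      rw [div_le_div_iff₀ hJr hhp]
      linarith
    have h5 : 2 * ((2 * (I : ℝ) + 1) * L * T.card) / J * 3 ^ j =
        (2 * ((2 * (I : ℝ) + 1) * L * T.card) * 3 ^ j) * (1 / J) := by ring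
    have h6 : C * L * ρ * T.card =
        (2 * ((2 * (I : ℝ) + 1) * L * T.card) * 3 ^ j) * (4 * ρ / h) := by
      rw [hC]
      ring
    rw [h5, h6]
    exact mul_le_mul_of_nonneg_left h4 (by positivity)
  · -- progressions
    intro q hq
    set e : EuclideanSpace ℝ (Fin (j + 1)) := SLI_e D q with he
    have he0 : e 0 = 1 := SLI_e_zero D q
    have hes : ∀ i : Fin j, e i.succ = (q i : ℝ) / D := SLI_e_succ D q
    have hN1 : ‖e‖ ≤ s := SLI_e_norm D hD q hq
    have hNp : 0 < ‖e‖ := by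
      rw [norm_pos_iff]
      intro h0
      rw [h0] at he0
      simp at he0
    obtain ⟨x, hx⟩ := hK ((1 / ‖e‖) • e) (by
      rw [norm_smul, Real.norm_of_nonneg (by positivity)]
      field_simp)
    have hseg : ∀ u : ℝ, x 0 ≤ u → u ≤ x 0 + 4 * h → x + (u - x 0) • e ∈ K := by
      intro u hu1 hu2
      have h1 := hx ((u - x 0) * ‖e‖) (mul_nonneg (by linarith) hNp.le) (by
        have h2 : (u - x 0) * ‖e‖ ≤ (4 * h) * s :=
          mul_le_mul (by linarith) hN1 hNp.le (by positivity)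
        have h3 : (4 * h) * s = 1 := by
          rw [h4h]
          field_simp
        linarith)
      rw [smul_smul] at h1
      have h2 : (u - x 0) * ‖e‖ * (1 / ‖e‖) = u - x 0 := by
        field_simp
      rw [h2] at h1
      exact h1
    have hx0 : x ∈ K := by
      have := hseg (x 0) le_rfl (by linarith)
      simpa using this
    have hxR : |x 0| ≤ R := by
      have h1 := PiLp.norm_apply_le x 0
      rw [Real.norm_eq_abs] at h1
      exact h1.trans (hR x hx0)
    set i0 : ℤ := ⌈x 0 / h⌉ with hi0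
    have hi1 : x 0 ≤ i0 * h := by
      have := Int.le_ceil (x 0 / h)
      rwa [div_le_iff₀ hhp] at this
    have hi2 : i0 * h < x 0 + h := by
      have h1 := Int.ceil_lt_add_one (x 0 / h)
      have h2 : (i0 : ℝ) * h < (x 0 / h + 1) * h := mul_lt_mul_of_pos_right h1 hhp
      have h3 : (x 0 / h + 1) * h = x 0 + h := by
        field_simp
      linarith
    have hiI : i0 ∈ Finset.Icc (-(I : ℤ)) I := by
      obtain ⟨h1, h2⟩ := abs_le.1 hxR
      have h3 : R / h ≤ ⌈R / h⌉₊ := Nat.le_ceil _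
      have h4 : x 0 / h ≤ R / h := div_le_div_of_nonneg_right h2 hhp.le
      have h5 : -(R / h) ≤ x 0 / h := by
        rw [← neg_div]
        exact div_le_div_of_nonneg_right h1 hhp.le
      rw [Finset.mem_Icc]
      constructor
      · have h6 : (-(I : ℤ) : ℝ) ≤ i0 := by
          have := Int.le_ceil (x 0 / h)
          rw [hI]
          push_cast
          linarith
        exact_mod_cast h6
      · have h6 : (i0 : ℝ) < (I : ℝ) + 1 := by
          have := Int.ceil_lt_add_one (x 0 / h)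
          rw [hI]
          push_cast
          linarith
        have h7 : i0 < (I : ℤ) + 1 := by exact_mod_cast h6
        omega
    refine ⟨fun i => ⌊(x i.succ + (2 * ρ * l + i0 * h - x 0) * ((q i : ℝ) / D)) / ρ⌋, ?_⟩
    intro k hk
    have hlJ : (l : ℝ) ≤ J := by exact_mod_cast hl.le
    have hkL : (k : ℝ) ≤ L := by exact_mod_cast hk.le
    have hDp : (0 : ℝ) < D := by exact_mod_cast hD
    set u : ℝ := SLI_u ρ h D l i0 k with hu
    have hu1 : x 0 ≤ u := by
      rw [hu]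
      unfold SLI_u
      have h1 : 0 ≤ 2 * ρ * l := by positivity
      have h2 : 0 ≤ (k : ℝ) * D * ρ := by positivity
      linarith
    have hu2 : u ≤ x 0 + 4 * h := by
      rw [hu]
      unfold SLI_u
      have h1 : 2 * ρ * l ≤ 2 * ρ * J := mul_le_mul_of_nonneg_left hlJ h2ρ.le
      have h2 : (k : ℝ) * D * ρ ≤ L * D * ρ := by gcongr
      have h3 : (0 : ℝ) ≤ L * D * ρ := by positivity
      linarith
    have hp := hseg u hu1 hu2
    set p : EuclideanSpace ℝ (Fin (j + 1)) := x + (u - x 0) • e with hpdef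
    have hp0 : p 0 = u := by
      simp [hpdef, he0]
    have hps : ∀ i : Fin j, p i.succ = x i.succ + (u - x 0) * ((q i : ℝ) / D) := by
      intro i
      simp [hpdef, hes]
    obtain ⟨t, htT, htp⟩ : ∃ t ∈ T, p ∈ Metric.closedBall t ρ := by
      have := hcov hp
      simpa using this
    have hfl : (fun i : Fin j => ⌊(x i.succ + (2 * ρ * l + i0 * h - x 0) * ((q i : ℝ) / D)) / ρ⌋ +
        (k : ℤ) * q i) = fun i : Fin j => ⌊p i.succ / ρ⌋ := by
      funext i
      have h1 : p i.succ / ρ =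
          (x i.succ + (2 * ρ * l + i0 * h - x 0) * ((q i : ℝ) / D)) / ρ + ((k * q i : ℕ) : ℝ) := by
        rw [hps i, hu]
        unfold SLI_u
        push_cast
        field_simp
        ring
      rw [h1, Int.floor_add_natCast]
      push_cast
      ring
    rw [hfl, Finset.mem_biUnion]
    refine ⟨((i0, k), t), ?_, SLI_box_mem hρ p t htp⟩
    rw [Finset.mem_filter]
    refine ⟨?_, ?_⟩
    · unfold SLI_X
      rw [Finset.mem_product, Finset.mem_product, Finset.mem_range]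
      exact ⟨⟨hiI, hk⟩, htT⟩
    · change |t 0 - SLI_u ρ h D l i0 k| ≤ ρ
      rw [← hu, ← hp0]
      have h1 : ‖(t - p) 0‖ ≤ ρ := by
        refine (PiLp.norm_apply_le (t - p) 0).trans ?_
        rw [← dist_eq_norm, dist_comm]
        exact htp
      simpa [Real.norm_eq_abs] using h1

end Pool.Agent.BK
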